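import Pool.Agent.H37.CNS.Stmts
import Pool.Agent.H1.CNZ.TWI

/-!
# Row PRL of the board `cns`: conductors of direct products
-/

set_option autoImplicit false

namespace Pool.CND

open Finset

namespace PRL

section

variable {k L G : Type} [Field k] [Field L] [Algebra k L] [Group G]

theorem cond_nonneg (P : Place k L) (ρ : G →* (L ≃ₐ[k] L)) (c : ℚ) (h : IsConductor P ρ c) :
    0 ≤ c := by
  obtain ⟨l, -, -, rfl⟩ := h
  positivity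

theorem cond_ne_zero [Finite G] (P : Place k L) (ρ : G →* (L ≃ₐ[k] L)) (c : ℚ)
    (h : IsConductor P ρ c) (h1 : ram P ρ 1 ≠ {1}) : c ≠ 0 := by
  obtain ⟨l, hl, hl1, rfl⟩ := h
  have hl0 : l ≠ 0 := by
    rintro rfl
    exact h1 hl1
  have hpos : ∀ i, 0 < (ram P ρ i).ncard := fun i =>
    (Set.ncard_pos (Set.toFinite _)).2 ⟨1, TWI.one_mem_ram P ρ i⟩
  have hs : (0 : ℚ) < ∑ i ∈ Icc 1 l, ((ram P ρ i).ncard : ℚ) := by
    apply Finset.sum_pos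
    · intro i _
      exact_mod_cast hpos i
    · exact ⟨1, Finset.mem_Icc.2 ⟨le_rfl, Nat.one_le_iff_ne_zero.2 hl0⟩⟩
  have h0 : (0 : ℚ) < ((ram P ρ 0).ncard : ℚ) := by exact_mod_cast hpos 0
  exact (div_pos hs h0).ne'

theorem exists_cond [Finite G] (hCNV : S_CNV) (hSUB : S_SUB) (P : Place k L)
    (ρ : G →* (L ≃ₐ[k] L)) (hinj : Function.Injective ρ) (h : ram P ρ 1 ≠ {1}) :
    ∃ c : ℚ, IsConductor P ρ c := by
  classical
  have := Fintype.ofFinite G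
  obtain ⟨W, I, hW, hI, -, -⟩ := hSUB k L G P ρ
  obtain ⟨g, hg, hg1⟩ := TWI.exists_of_ram_ne P ρ 1 h
  have hgW : g ∈ W := by
    have h2 : g ∈ (W : Set G) := by rw [hW]; exact hg
    exact h2
  obtain ⟨g₀, hg₀, hmax⟩ := Set.exists_max_image {x | x ∈ W ∧ x ≠ 1} (fun x => P.b (ρ x))
    (Set.toFinite _) ⟨g, hgW, hg1⟩
  exact ⟨_, hCNV k L G P ρ W I (P.b (ρ g₀)) hinj hW hI
    ⟨⟨g₀, hg₀.1, hg₀.2, rfl⟩, fun x hx hx1 => hmax x ⟨hx, hx1⟩⟩⟩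

theorem ram_comp {G' : Type} [Group G'] (P : Place k L) (ρ : G →* (L ≃ₐ[k] L)) (f : G' ≃* G)
    (i : ℕ) : ram P (ρ.comp f.toMonoidHom) i = f.symm '' ram P ρ i := by
  ext g
  constructor
  · intro h
    exact ⟨f g, h, f.symm_apply_apply g⟩
  · rintro ⟨g', h, rfl⟩
    have e1 : (ρ.comp f.toMonoidHom) (f.symm g') = ρ g' := by
      change ρ (f (f.symm g')) = ρ g'
      rw [f.apply_symm_apply]
    refine ⟨?_, ?_⟩
    · rw [e1]; exact h.1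
    · intro u hu hu1
      rw [e1]
      exact h.2 u hu hu1

theorem cond_comp {G' : Type} [Group G'] (P : Place k L) (ρ : G →* (L ≃ₐ[k] L)) (f : G' ≃* G)
    (c : ℚ) (h : IsConductor P ρ c) : IsConductor P (ρ.comp f.toMonoidHom) c := by
  obtain ⟨l, hl, hl1, hc⟩ := h
  have hcard : ∀ i, (ram P (ρ.comp f.toMonoidHom) i).ncard = (ram P ρ i).ncard := by
    intro i
    rw [ram_comp]
    exact Set.ncard_image_of_injective _ f.symm.injective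
  refine ⟨l, ?_, ?_, ?_⟩
  · obtain ⟨g, hg, hg1⟩ := TWI.exists_of_ram_ne P ρ l hl
    intro h1
    have h2 : f.symm g ∈ ram P (ρ.comp f.toMonoidHom) l := by
      rw [ram_comp]
      exact ⟨g, hg, rfl⟩
    rw [h1, Set.mem_singleton_iff] at h2
    exact hg1 ((map_eq_one_iff _ f.symm.injective).1 h2)
  · rw [ram_comp, hl1, Set.image_singleton, map_one]
  · have h2 : ∑ i ∈ Icc 1 l, ((ram P (ρ.comp f.toMonoidHom) i).ncard : ℚ) =
        ∑ i ∈ Icc 1 l, ((ram P ρ i).ncard : ℚ) :=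
      Finset.sum_congr rfl (fun i _ => by rw [hcard i])
    rw [hc, hcard 0, h2]

theorem cover_comp {G' : Type} [Group G'] (ρ : G →* (L ≃ₐ[k] L)) (t : L) (f : G' ≃* G)
    (h : IsCover ρ t) : IsCover (ρ.comp f.toMonoidHom) t := by
  have hap : ∀ g : G', (ρ.comp f.toMonoidHom) g = ρ (f g) := fun g => rfl
  refine ⟨h.inj.comp f.injective, h.trans, ?_, ?_⟩
  · intro x
    rw [← h.fixed x]
    constructor
    · intro h1 g
      have h2 := h1 (f.symm g)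
      rwa [hap, f.apply_symm_apply] at h2
    · intro h1 g
      exact h1 (f g)
  · intro P hP g hg
    exact (map_eq_one_iff _ f.injective).1 (h.unram P hP (f g) hg)

end

/-- a place below a place at infinity is at infinity -/
theorem neg_below {k L L' : Type} [Field k] [Field L] [Algebra k L] [Field L'] [Algebra k L']
    (P : Place k L) (j : L' →ₐ[k] L) (t' : L') (Q : Place k L') (e : ℕ)
    (hQ : ∀ z : L', z ≠ 0 → (e : ℤ) * Q.ord z = P.ord (j z)) (ht' : Transcendental k t')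
    (hneg : P.ord (j t') < 0) : Q.ord t' < 0 := by
  have ht0 : t' ≠ 0 := by
    rintro rfl
    exact ht' isAlgebraic_zero
  have h1 := hQ t' ht0
  by_contra h2
  push Not at h2
  have h3 : (0 : ℤ) ≤ (e : ℤ) * Q.ord t' := mul_nonneg (Int.natCast_nonneg e) h2
  omega

/-- the group of the compositum is the direct product, if the jumps of the first cover are large -/
theorem gamma_top (hQU1 : S_QU1) (hQCG : S_QCG) (hCJC : S_CJC) (hTAC : S_TAC) (hLBQ : S_LBQ)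
    (hCNV : S_CNV) (hEXI : S_EXI) (hSUB : S_SUB) (p : ℕ) (k L L₁ L₂ G H : Type) [Field k]
    [IsAlgClosed k] [Field L] [Field L₁] [Field L₂] [Algebra k L] [Algebra k L₁] [Algebra k L₂]
    [Group G] [Group H] [Finite G] [Finite H] (ρ₁ : G →* (L₁ ≃ₐ[k] L₁))
    (ρ₂ : H →* (L₂ ≃ₐ[k] L₂)) (t₁ : L₁) (t₂ : L₂) (j₁ : L₁ →ₐ[k] L) (j₂ : L₂ →ₐ[k] L)
    (Γ : Subgroup (G × H)) (ρ : Γ →* (L ≃ₐ[k] L)) (hp : p.Prime) (hch : CharP k p)
    (hcov₁ : IsCover ρ₁ t₁) (hcov₂ : IsCover ρ₂ t₂) (hj : j₁ t₁ = j₂ t₂)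
    (hQ₁ : Quo ρ ρ₁ ((MonoidHom.fst G H).comp Γ.subtype) j₁)
    (hQ₂ : Quo ρ ρ₂ ((MonoidHom.snd G H).comp Γ.subtype) j₂) (P₁ : Place k L₁)
    (hP₁ : P₁.ord t₁ < 0) (c₁ : ℚ) (hc₁ : IsConductor P₁ ρ₁ c₁) (hc₁0 : c₁ ≠ 0) (m : ℕ)
    (hm : ∀ g ∈ ram P₁ ρ₁ 1, g ≠ 1 → (m : ℤ) ≤ P₁.b (ρ₁ g)) (C : ℚ)
    (hC : ∀ (P₂ : Place k L₂) (c₂ : ℚ), P₂.ord t₂ < 0 → IsConductor P₂ ρ₂ c₂ → c₂ ≤ C)
    (hmC : C * (Nat.card G : ℚ) ^ 2 < m) : Γ = ⊤ := by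
  by_contra hΓ
  let N : Subgroup G := Γ.comap (MonoidHom.inl G H)
  have hN : ∀ g, g ∈ N ↔ ((g, 1) : G × H) ∈ Γ := fun g => Iff.rfl
  have hNn : N.Normal := by
    constructor
    intro n hn g
    obtain ⟨γ, hγ⟩ := hQ₁.surj g
    have hγ' : (γ : G × H).1 = g := hγ
    have h1 : (γ : G × H) * (n, 1) * (γ : G × H)⁻¹ ∈ Γ :=
      Γ.mul_mem (Γ.mul_mem γ.2 ((hN n).1 hn)) (Γ.inv_mem γ.2)
    have h2 : (γ : G × H) * (n, 1) * (γ : G × H)⁻¹ = (g * n * g⁻¹, 1) := by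
      apply Prod.ext
      · change (γ : G × H).1 * n * (γ : G × H).1⁻¹ = g * n * g⁻¹
        rw [hγ']
      · change (γ : G × H).2 * 1 * (γ : G × H).2⁻¹ = 1
        rw [mul_one, mul_inv_cancel]
    rw [h2] at h1
    exact h1
  have hNt : ∃ g : G, g ∉ N := by
    by_contra hcon
    push Not at hcon
    apply hΓ
    rw [eq_top_iff]
    rintro ⟨g, h'⟩ -
    obtain ⟨γ, hγ⟩ := hQ₂.surj h'
    have hγ' : (γ : G × H).2 = h' := hγ
    have h1 : ((g * (γ : G × H).1⁻¹, 1) : G × H) ∈ Γ := (hN _).1 (hcon _)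
    have h2 := Γ.mul_mem h1 γ.2
    have h3 : ((g * (γ : G × H).1⁻¹, 1) : G × H) * (γ : G × H) = (g, h') := by
      apply Prod.ext
      · change g * (γ : G × H).1⁻¹ * (γ : G × H).1 = g
        rw [inv_mul_cancel_right]
      · change 1 * (γ : G × H).2 = h'
        rw [one_mul, hγ']
    rwa [h3] at h2
  obtain ⟨E, ρ', t', hE, ht', hρ', hcov'⟩ := hQU1 k L₁ G ρ₁ t₁ N hcov₁
  -- the elements of `E` are in the second field
  have hEL : ∀ z : E, (j₁.comp E.val) z ∈ j₂.range := by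
    intro z
    obtain ⟨y, hy⟩ := hQ₂.fix (j₁ (z : L₁)) (by
      intro γ hγ
      have h1 : (γ : G × H).2 = 1 := hγ
      rw [hQ₁.eqv]
      have h2 : (γ : G × H).1 ∈ N := by
        rw [hN]
        have h3 : (((γ : G × H).1, 1) : G × H) = γ := by rw [← h1]
        rw [h3]
        exact γ.2
      exact congrArg j₁ ((hE z).1 z.2 _ h2))
    exact ⟨y, hy.symm⟩
  let e₀ : L₂ ≃ₐ[k] j₂.range := AlgEquiv.ofInjectiveField j₂
  let j' : E →ₐ[k] L₂ := e₀.symm.toAlgHom.comp ((j₁.comp E.val).codRestrict j₂.range hEL)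
  have hj' : ∀ z : E, j₂ (j' z) = j₁ (z : L₁) := by
    intro z
    have h1 : e₀ (j' z) = (j₁.comp E.val).codRestrict j₂.range hEL z :=
      e₀.apply_symm_apply _
    have h2 : ((e₀ (j' z) : j₂.range) : L) = j₂ (j' z) := rfl
    rw [← h2, h1]
    rfl
  have hj₂i : Function.Injective j₂ := j₂.toRingHom.injective
  have hj₁i : Function.Injective j₁ := j₁.toRingHom.injective
  have hj't : j' t' = t₂ := by
    apply hj₂i
    rw [hj', ht', hj]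
  -- the homomorphism `H → G / N`
  have hkey : ∀ γ γ' : Γ, (γ : G × H).2 = (γ' : G × H).2 →
      (((γ : G × H).1 : G) : G ⧸ N) = (((γ' : G × H).1 : G) : G ⧸ N) := by
    intro γ γ' h
    rw [QuotientGroup.eq, hN]
    have h1 := Γ.mul_mem (Γ.inv_mem γ.2) γ'.2
    have h2 : (γ : G × H)⁻¹ * (γ' : G × H) = ((γ : G × H).1⁻¹ * (γ' : G × H).1, 1) := by
      apply Prod.ext
      · rfl
      · change (γ : G × H).2⁻¹ * (γ' : G × H).2 = 1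
        rw [h, inv_mul_cancel]
    rw [h2] at h1
    exact h1
  choose s hs using hQ₂.surj
  have hs' : ∀ h : H, (s h : G × H).2 = h := hs
  let π' : H →* G ⧸ N := MonoidHom.mk' (fun h => (((s h : G × H).1 : G) : G ⧸ N)) (by
    intro a b
    have h1 := hkey (s (a * b)) (s a * s b) (by
      rw [hs']
      change a * b = (s a : G × H).2 * (s b : G × H).2
      rw [hs', hs'])
    exact h1)
  have hπ' : ∀ γ : Γ, π' (γ : G × H).2 = (((γ : G × H).1 : G) : G ⧸ N) := by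
    intro γ
    exact hkey (s (γ : G × H).2) γ (hs' _)
  have hπs : Function.Surjective π' := by
    intro q
    obtain ⟨g, rfl⟩ := QuotientGroup.mk_surjective q
    obtain ⟨γ, hγ⟩ := hQ₁.surj g
    have hγ' : (γ : G × H).1 = g := hγ
    exact ⟨(γ : G × H).2, by rw [hπ', hγ']⟩
  have hquo₂ : Quo ρ₂ ρ' π' j' := by
    refine ⟨hπs, ?_, ?_⟩
    · intro h y
      apply hj₂i
      have h1 := hQ₂.eqv (s h) (j' y)
      have h2 := hQ₁.eqv (s h) (y : L₁)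
      have h3 : ((MonoidHom.snd G H).comp Γ.subtype) (s h) = h := hs h
      rw [h3] at h1
      rw [← h1, hj', hj', h2]
      have h4 := hρ' (s h : G × H).1 y
      change j₁ (ρ₁ (s h : G × H).1 y) = _
      rw [← h4]
      rfl
    · intro z hz
      obtain ⟨y, hy⟩ := hQ₁.fix (j₂ z) (by
        intro γ hγ
        have h1 : (γ : G × H).1 = 1 := hγ
        rw [hQ₂.eqv]
        have h2 : π' (γ : G × H).2 = 1 := by
          rw [hπ', h1]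
          rfl
        exact congrArg j₂ (hz _ h2))
      have hyE : y ∈ E := by
        rw [hE]
        intro g hg
        apply hj₁i
        have h1 := hQ₁.eqv ⟨(g, 1), (hN g).1 hg⟩ y
        have h2 := hQ₂.eqv ⟨(g, 1), (hN g).1 hg⟩ z
        change _ = j₁ (ρ₁ g y) at h1
        change _ = j₂ (ρ₂ 1 z) at h2
        rw [map_one, AlgEquiv.one_apply] at h2
        rw [← h1, ← hy, h2]
      refine ⟨⟨y, hyE⟩, ?_⟩
      apply hj₂i
      rw [hj']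
      exact hy
  have hquo₁ : Quo ρ₁ ρ' (QuotientGroup.mk' N) E.val := by
    refine ⟨QuotientGroup.mk'_surjective N, ?_, ?_⟩
    · intro g y
      exact (hρ' g y).symm
    · intro z hz
      exact ⟨⟨z, (hE z).2 fun c hc => hz c ((QuotientGroup.eq_one_iff c).2 hc)⟩, rfl⟩
  -- places at infinity
  have hcov₁' : IsCover ρ₁ (E.val t') := by
    have h1 : E.val t' = t₁ := ht'
    rw [h1]
    exact hcov₁
  have hcov₂' : IsCover ρ₂ (j' t') := by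
    rw [hj't]
    exact hcov₂
  have hP₁' : P₁.ord (E.val t') < 0 := by
    have h1 : E.val t' = t₁ := ht'
    rw [h1]
    exact hP₁
  obtain ⟨R₁, e₁, he₁, hR₁, -, -⟩ := hQCG p k L₁ E G (G ⧸ N) ρ₁ ρ' (QuotientGroup.mk' N) E.val t'
    P₁ c₁ hp hch hcov₁' hcov' hquo₁ hc₁ hc₁0
  have hR₁n : R₁.ord t' < 0 := neg_below P₁ E.val t' R₁ e₁ hR₁ hcov'.trans hP₁'
  obtain ⟨g₁, hg₁⟩ := hNt
  have hg₁' : ((g₁ : G) : G ⧸ N) ≠ 1 := fun h => hg₁ ((QuotientGroup.eq_one_iff g₁).1 h)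
  have hram₁ : ram R₁ ρ' 1 ≠ {1} := fun h =>
    hg₁' (hTAC p k E (G ⧸ N) ρ' t' R₁ hp hch hcov' hR₁n h _)
  obtain ⟨c', hc'⟩ := exists_cond hCNV hSUB R₁ ρ' hcov'.inj hram₁
  have hc'0 : c' ≠ 0 := cond_ne_zero R₁ ρ' c' hc' hram₁
  have hlow : (m : ℚ) ≤ c' * (Nat.card G : ℚ) ^ 2 :=
    hLBQ p k L₁ E G (G ⧸ N) ρ₁ ρ' (QuotientGroup.mk' N) E.val t' P₁ R₁ e₁ m c' hp hch hcov₁' hcov'
      hquo₁ hP₁' he₁ hR₁ hm hc' hc'0
  obtain ⟨hfin, hsep⟩ := TWI.fin_sep ρ₂ t₂ hcov₂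
  obtain ⟨P₂, hP₂⟩ := hEXI k L₂ t₂ hcov₂.trans hfin hsep
  have hram₂ : ram P₂ ρ₂ 1 ≠ {1} := by
    intro h
    have h1 := hTAC p k L₂ H ρ₂ t₂ P₂ hp hch hcov₂ hP₂ h
    obtain ⟨h', hh'⟩ := hπs ((g₁ : G) : G ⧸ N)
    rw [h1 h', map_one] at hh'
    exact hg₁' hh'.symm
  obtain ⟨c₂, hc₂⟩ := exists_cond hCNV hSUB P₂ ρ₂ hcov₂.inj hram₂
  have hc₂0 : c₂ ≠ 0 := cond_ne_zero P₂ ρ₂ c₂ hc₂ hram₂
  have hc₂C : c₂ ≤ C := hC P₂ c₂ hP₂ hc₂
  obtain ⟨R₂, e₂, he₂, hR₂, hle₂, -⟩ := hQCG p k L₂ E H (G ⧸ N) ρ₂ ρ' π' j' t' P₂ c₂ hp hch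
    hcov₂' hcov' hquo₂ hc₂ hc₂0
  have hR₂n : R₂.ord t' < 0 := neg_below P₂ j' t' R₂ e₂ hR₂ hcov'.trans (by rw [hj't]; exact hP₂)
  have hc'R : IsConductor R₂ ρ' c' := hCJC k E (G ⧸ N) ρ' t' R₁ R₂ c' hcov' hR₁n hR₂n hc'
  have hc'C : c' ≤ C := (hle₂ c' hc'R).trans hc₂C
  have h1 : c' * (Nat.card G : ℚ) ^ 2 ≤ C * (Nat.card G : ℚ) ^ 2 :=
    mul_le_mul_of_nonneg_right hc'C (by positivity)
  linarith

end PRL

open PRL in
theorem prl_thm (hPUB : S_PUB) (hCMA : S_CMA) (hCMU : S_CMU) (hQU1 : S_QU1) (hQCG : S_QCG)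
    (hCJC : S_CJC) (hCUQ : S_CUQ) (hTAC : S_TAC) (hLBQ : S_LBQ) (hCNV : S_CNV) (hEXI : S_EXI)
    (_hWLD : S_WLD) (hSUB : S_SUB) : S_PRL := by
  intro p k G H _ _ _ _ _ _ c hp hch hc hc0 hH
  obtain ⟨L₀, _, _, ρ₀, t₀, hcov₀, P₀, hP₀, hc₀⟩ := hc
  obtain ⟨L₂, _, _, ρ₂, t₂, hcov₂⟩ := hH
  have hcpos : 0 < c := lt_of_le_of_ne (cond_nonneg P₀ ρ₀ c hc₀) (Ne.symm hc0)
  -- a bound for the conductors of the second cover
  obtain ⟨C, hC⟩ : ∃ C : ℚ, ∀ (P₂ : Place k L₂) (c₂ : ℚ), P₂.ord t₂ < 0 →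
      IsConductor P₂ ρ₂ c₂ → c₂ ≤ C := by
    by_cases h : ∃ (P₂ : Place k L₂) (c₂ : ℚ), P₂.ord t₂ < 0 ∧ IsConductor P₂ ρ₂ c₂
    · obtain ⟨P₂, c₂, hP₂, hc₂⟩ := h
      refine ⟨c₂, fun P' c' hP' hc' => ?_⟩
      have h1 := hCJC k L₂ H ρ₂ t₂ P₂ P' c₂ hcov₂ hP₂ hP' hc₂
      exact (hCUQ k L₂ H ρ₂ P' c' c₂ hc' h1).le
    · exact ⟨0, fun P' c' hP' hc' => absurd ⟨P', c', hP', hc'⟩ h⟩
  -- the number `m`
  have hGpos : 0 < Nat.card G := Nat.card_pos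
  have hHpos : 0 < Nat.card H := Nat.card_pos
  have hqpos : 1 ≤ p * Nat.card G * Nat.card H :=
    Nat.mul_pos (Nat.mul_pos hp.pos hGpos) hHpos
  obtain ⟨K, hK⟩ := exists_nat_gt (max (C * (Nat.card G : ℚ) ^ 2) (C / c))
  obtain ⟨m, hm⟩ : ∃ m : ℕ, m = 1 + K * (p * Nat.card G * Nat.card H) := ⟨_, rfl⟩
  have hKm : K ≤ m := by
    rw [hm]
    calc K = K * 1 := (mul_one K).symm
      _ ≤ K * (p * Nat.card G * Nat.card H) := Nat.mul_le_mul_left K hqpos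
      _ ≤ _ := Nat.le_add_left _ _
  have hm1 : 1 ≤ m := by
    rw [hm]
    exact Nat.le_add_right _ _
  have hcop : Nat.Coprime m (p * Nat.card G * Nat.card H) := by
    rw [hm]
    exact (Nat.coprime_add_mul_right_left 1 _ K).2 (Nat.coprime_one_left _)
  have hcopG : Nat.Coprime m (Nat.card G) := by
    refine Nat.Coprime.coprime_dvd_right ?_ hcop
    exact ⟨p * Nat.card H, by ring⟩
  have hcopp : Nat.Coprime m p := by
    refine Nat.Coprime.coprime_dvd_right ?_ hcop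
    exact ⟨Nat.card G * Nat.card H, by ring⟩
  have hpm : ¬ p ∣ m := by
    intro h
    exact (Nat.Prime.coprime_iff_not_dvd hp).1 hcopp.symm h
  have hKm' : (K : ℚ) ≤ (m : ℚ) := by exact_mod_cast hKm
  have hmC : C * (Nat.card G : ℚ) ^ 2 < m :=
    (lt_of_le_of_lt (le_max_left _ _) hK).trans_le hKm'
  have hmc : C < (m : ℚ) * c := by
    have h1 : C / c < m := (lt_of_le_of_lt (le_max_right _ _) hK).trans_le hKm'
    rwa [div_lt_iff₀ hcpos] at h1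
  obtain ⟨L₁, _, _, ρ₁, t₁, P₁, hcov₁, hP₁, hc₁, hb⟩ :=
    hPUB p k L₀ G ρ₀ t₀ P₀ c m hp hch hm1 hpm hcopG hcov₀ hP₀ hc₀
  have hmpos : (0 : ℚ) < m := by exact_mod_cast hm1
  have hc₁0 : (m : ℚ) * c ≠ 0 := (mul_pos hmpos hcpos).ne'
  -- the compositum
  have hfix₁ : ∀ g : G, ρ₁ g t₁ = t₁ :=
    (hcov₁.fixed t₁).2 (IntermediateField.mem_adjoin_simple_self k t₁)
  have hfix₂ : ∀ g : H, ρ₂ g t₂ = t₂ :=
    (hcov₂.fixed t₂).2 (IntermediateField.mem_adjoin_simple_self k t₂)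
  obtain ⟨L, _, _, j₁, j₂, Γ, ρ, hj, hinj, hfixed, -, hQ₁, hQ₂⟩ :=
    hCMA k L₁ L₂ G H ρ₁ ρ₂ t₁ t₂ (fun _ => 0) (fun _ => 0) Polynomial.X
      (by rw [Polynomial.aeval_X]; exact hcov₁) (by rw [Polynomial.aeval_X]; exact hcov₂)
      (by intro g; rw [map_zero, add_zero]; exact hfix₁ g)
      (by intro g; rw [map_zero, add_zero]; exact hfix₂ g)
  rw [Polynomial.aeval_X] at hfixed
  have hcov : IsCover ρ (j₁ t₁) :=
    hCMU k L L₁ L₂ G H ρ₁ ρ₂ t₁ t₂ j₁ j₂ Γ ρ hcov₁ hcov₂ hj hinj hfixed hQ₁ hQ₂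
  have hΓ : Γ = ⊤ := gamma_top hQU1 hQCG hCJC hTAC hLBQ hCNV hEXI hSUB p k L L₁ L₂ G H ρ₁ ρ₂ t₁ t₂
    j₁ j₂ Γ ρ hp hch hcov₁ hcov₂ hj hQ₁ hQ₂ P₁ hP₁ (m * c) hc₁ hc₁0 m hb C hC hmC
  have hcov2 : IsCover ρ (j₂ t₂) := by rw [← hj]; exact hcov
  -- a place at infinity
  obtain ⟨hfin, hsep⟩ := TWI.fin_sep ρ _ hcov
  obtain ⟨P, hP⟩ := hEXI k L _ hcov.trans hfin hsep
  obtain ⟨l₁, hl₁, -, -⟩ := id hc₁
  obtain ⟨g₁, -, hg₁⟩ := TWI.exists_of_ram_ne P₁ ρ₁ l₁ hl₁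
  obtain ⟨γ₁, hγ₁⟩ := hQ₁.surj g₁
  have hγ₁1 : γ₁ ≠ 1 := by
    rintro rfl
    rw [map_one] at hγ₁
    exact hg₁ hγ₁.symm
  have hram : ram P ρ 1 ≠ {1} := fun h =>
    hγ₁1 (hTAC p k L Γ ρ (j₁ t₁) P hp hch hcov hP h γ₁)
  obtain ⟨c', hc'⟩ := exists_cond hCNV hSUB P ρ hcov.inj hram
  have hc'0 : c' ≠ 0 := cond_ne_zero P ρ c' hc' hram
  obtain ⟨R₁, e₁, -, hR₁, hle₁, hlast₁⟩ :=
    hQCG p k L L₁ Γ G ρ ρ₁ _ j₁ t₁ P c' hp hch hcov hcov₁ hQ₁ hc' hc'0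
  obtain ⟨R₂, e₂, -, hR₂, -, hlast₂⟩ :=
    hQCG p k L L₂ Γ H ρ ρ₂ _ j₂ t₂ P c' hp hch hcov2 hcov₂ hQ₂ hc' hc'0
  have hR₁n : R₁.ord t₁ < 0 := neg_below P j₁ t₁ R₁ e₁ hR₁ hcov₁.trans hP
  have hR₂n : R₂.ord t₂ < 0 :=
    neg_below P j₂ t₂ R₂ e₂ hR₂ hcov₂.trans (by rw [← hj]; exact hP)
  have hcR₁ : IsConductor R₁ ρ₁ (m * c) := hCJC k L₁ G ρ₁ t₁ P₁ R₁ _ hcov₁ hP₁ hR₁n hc₁
  have hmc' : (m : ℚ) * c ≤ c' := hle₁ _ hcR₁
  obtain ⟨l, hl, hl1, -⟩ := id hc'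
  have heq : c' = m * c := by
    by_cases h : ∃ γ ∈ ram P ρ l, ((MonoidHom.fst G H).comp Γ.subtype) γ ≠ 1
    · exact hCUQ k L₁ G ρ₁ R₁ _ _ (hlast₁ l hl1 h) hcR₁
    · exfalso
      push Not at h
      obtain ⟨γ, hγ, hγ1⟩ := TWI.exists_of_ram_ne P ρ l hl
      have h2 : ((MonoidHom.snd G H).comp Γ.subtype) γ ≠ 1 := by
        intro h3
        exact hγ1 (Subtype.ext (Prod.ext (h γ hγ) h3))
      have h4 := hC R₂ c' hR₂n (hlast₂ l hl1 ⟨γ, hγ, h2⟩)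
      linarith
  -- the group is the direct product
  refine ⟨m, hm1, hcop, ?_⟩
  have f : (G × H) ≃* Γ := by
    rw [hΓ]
    exact Subgroup.topEquiv.symm
  exact ⟨L, inferInstance, inferInstance, ρ.comp f.toMonoidHom, j₁ t₁, cover_comp ρ _ f hcov, P, hP,
    cond_comp P ρ f _ (heq ▸ hc')⟩

end Pool.CND
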